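import Pool.Agent.W575.Hyp6.Disc
import Pool.Agent.W438.Hyp.Fin

/-!
# A hyperbolic 6-manifold of minimal volume with infinite first homology
-/

namespace Pool.Agent.Results.MP_3fe7bf_gt.MinimalVolumeInfiniteHomology

open Pool.Agent.W575.Hyp6 MeasureTheory

/-- There is a torsion-free group `Γ` of isometries of hyperbolic 6-space, acting freely and
properly discontinuously, with covolume `8π³/15` and with infinite abelianization. -/
theorem result : ∃ Γ : Subgroup PosLor,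
    (∀ γ ∈ Γ, IsOfFinOrder γ → γ = 1) ∧
    (∀ γ ∈ Γ, ∀ x : H6, γ • x = x → γ = 1) ∧
    (∀ x : H6, ∀ C : ℝ, {γ : PosLor | γ ∈ Γ ∧ -B x.1 (γ • x).1 ≤ C}.Finite) ∧
    (∃ D : Set H6, IsFundamentalDomain Γ D hypVol ∧
      hypVol D = ENNReal.ofReal (8 * Real.pi ^ 3 / 15)) ∧
    Γ.index = 414720 ∧
    Infinite (Abelianization Γ) := by
  have hfree : ∀ γ ∈ Gam, ∀ x : H6, γ • x = x → γ = 1 :=
    fun γ hγ x h => Gam_free γ hγ x.1 x.2.1 (congrArg Subtype.val h)
  obtain ⟨D, hD, hv⟩ := Pool.Agent.W438.Hyp.exists_fd_min Gam 1 le_rfl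
    (by rw [index_Gam]) hfree
  refine ⟨Gam, Gam_torsion_free, hfree, fun x C => (proper x C).subset (fun γ h => h.2),
    ⟨D, hD, ?_⟩, index_Gam, infinite_ab⟩
  rw [hv, Nat.cast_one, one_mul]

end Pool.Agent.Results.MP_3fe7bf_gt.MinimalVolumeInfiniteHomology
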